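import Pool.Agent.PSV.StmtsG
import Pool.Agent.Helper76_MT100G.Rel

set_option autoImplicit false

namespace Pool.Agent.PSV.H17

open BigOperators Matrix Polynomial Pool.Agent.MT100 Pool.Agent.MT100G Pool.Agent.MT100G.H76

noncomputable section

variable {d : Type} [Fintype d] [DecidableEq d]

/-- the module of relations -/
def Rl (h : d → PowerSeries ℚ) : Submodule ℚ[X] (d → ℚ[X]) where
  carrier := {p | ∑ i, ((p i : ℚ[X]) : PowerSeries ℚ) * h i = 0}
  zero_mem' := by simp
  add_mem' := by
    intro p q hp hq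
    simp only [Set.mem_setOf_eq] at hp hq ⊢
    have : ∀ i, (((p + q) i : ℚ[X]) : PowerSeries ℚ) * h i =
        ((p i : ℚ[X]) : PowerSeries ℚ) * h i + ((q i : ℚ[X]) : PowerSeries ℚ) * h i := by
      intro i
      rw [Pi.add_apply, Polynomial.coe_add, add_mul]
    rw [Finset.sum_congr rfl fun i _ => this i, Finset.sum_add_distrib, hp, hq, add_zero]
  smul_mem' := by
    intro c p hp
    simp only [Set.mem_setOf_eq] at hp ⊢
    have : ∀ i, (((c • p) i : ℚ[X]) : PowerSeries ℚ) * h i =
        (c : PowerSeries ℚ) * (((p i : ℚ[X]) : PowerSeries ℚ) * h i) := by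
      intro i
      rw [Pi.smul_apply, smul_eq_mul, Polynomial.coe_mul, mul_assoc]
    rw [Finset.sum_congr rfl fun i _ => this i, ← Finset.mul_sum, hp, mul_zero]

omit [DecidableEq d] in
theorem mem_Rl (h : d → PowerSeries ℚ) (p : d → ℚ[X]) :
    p ∈ Rl h ↔ ∑ i, ((p i : ℚ[X]) : PowerSeries ℚ) * h i = 0 := Iff.rfl

omit [DecidableEq d] in
theorem sat_Rl (h : d → PowerSeries ℚ) (c : ℚ[X]) (hc : c ≠ 0) (p : d → ℚ[X])
    (hp : c • p ∈ Rl h) : p ∈ Rl h := by
  rw [mem_Rl] at hp ⊢
  have : ∀ i, (((c • p) i : ℚ[X]) : PowerSeries ℚ) * h i =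
      (c : PowerSeries ℚ) * (((p i : ℚ[X]) : PowerSeries ℚ) * h i) := by
    intro i
    rw [Pi.smul_apply, smul_eq_mul, Polynomial.coe_mul, mul_assoc]
  rw [Finset.sum_congr rfl fun i _ => this i, ← Finset.mul_sum] at hp
  rcases mul_eq_zero.1 hp with h1 | h1
  · exact absurd (Polynomial.coe_eq_zero_iff.1 h1) hc
  · exact h1

theorem sat : SatStmt := by
  intro d _ _ h
  obtain ⟨I, e', ε, R', hI, hmax, hR'⟩ := exists_rel h
  obtain ⟨e, snf⟩ := Submodule.smithNormalForm (Pi.basisFun ℚ[X] d) (Rl h)
  set R : Fin e → d → ℚ[X] := fun l => snf.bM (snf.f l) with hR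
  have ha : ∀ l, snf.a l ≠ 0 := by
    intro l h0
    have h1 := snf.snf l
    rw [h0, zero_smul] at h1
    exact snf.bN.ne_zero l (Subtype.ext h1)
  have hmem : ∀ l, R l ∈ Rl h := by
    intro l
    apply sat_Rl h (snf.a l) (ha l)
    rw [hR]
    simp only
    rw [← snf.snf l]
    exact (snf.bN l).2
  have hind : LinearIndependent ℚ[X] R := snf.bM.linearIndependent.comp _ snf.f.injective
  have hspan : ∀ p ∈ Rl h, p ∈ Submodule.span ℚ[X] (Set.range R) := by
    intro p hp
    have h1 := snf.bN.sum_repr ⟨p, hp⟩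
    have h2 : p = ∑ l, snf.bN.repr ⟨p, hp⟩ l • ((snf.bN l : Rl h) : d → ℚ[X]) := by
      conv_lhs => rw [show p = ((⟨p, hp⟩ : Rl h) : d → ℚ[X]) from rfl, ← h1]
      rw [Submodule.coe_sum]
      rfl
    rw [h2]
    refine Submodule.sum_mem _ fun l _ => Submodule.smul_mem _ _ ?_
    rw [snf.snf l]
    exact Submodule.smul_mem _ _ (Submodule.subset_span ⟨l, rfl⟩)
  -- the ranks agree
  have hee : e = e' := by
    apply le_antisymm
    · -- multiples of `R` are independent in the span of `R'`
      have hc : ∀ l, ∃ c : ℚ[X], c ≠ 0 ∧ c • R l ∈ Submodule.span ℚ[X] (Set.range R') :=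
        fun l => hR'.max _ (hmem l)
      choose c hc0 hc using hc
      have h1 : LinearIndependent ℚ[X]
          (fun l => (⟨c l • R l, hc l⟩ : Submodule.span ℚ[X] (Set.range R'))) := by
        rw [Fintype.linearIndependent_iff]
        intro g hg l
        have h2 := congrArg (Subtype.val) hg
        rw [Submodule.coe_sum] at h2
        have h3 : ∑ l, (g l * c l) • R l = 0 := by
          rw [← Submodule.coe_zero (p := Submodule.span ℚ[X] (Set.range R')), ← h2]
          refine Finset.sum_congr rfl fun l _ => ?_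
          rw [mul_smul]
          rfl
        have h4 := Fintype.linearIndependent_iff.1 hind _ h3 l
        exact (mul_eq_zero.1 h4).resolve_right (hc0 l)
      have h5 := h1.fintype_card_le_finrank
      rw [Fintype.card_fin] at h5
      have h6 := finrank_span_eq_card hR'.indep
      rw [h6, Fintype.card_fin] at h5
      exact h5
    · have h1 : LinearIndependent ℚ[X] (fun l => (⟨R' l, hR'.rel l⟩ : Rl h)) := by
        rw [Fintype.linearIndependent_iff]
        intro g hg l
        have h2 := congrArg (Subtype.val) hg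
        rw [Submodule.coe_sum] at h2
        have h3 : ∑ l, g l • R' l = 0 := h2
        exact Fintype.linearIndependent_iff.1 hR'.indep _ h3 l
      have h5 := h1.fintype_card_le_finrank
      rw [Fintype.card_fin, Module.finrank_eq_card_basis snf.bN, Fintype.card_fin] at h5
      exact h5
  refine ⟨I, e, ε.trans (Equiv.sumCongr (Equiv.refl _) (finCongr hee.symm)), R, hI, hmax,
    hmem, hind, hspan, ?_⟩
  -- values
  intro L _ _ ξ
  set P : Matrix d d ℚ[X] := Matrix.of fun k i => snf.bM k i with hP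
  set Q : Matrix d d ℚ[X] := Matrix.of fun i k => snf.bM.repr (Pi.single i 1) k with hQ
  have hQP : Q * P = 1 := by
    ext1 i j
    rw [Matrix.mul_apply]
    have h1 := congrFun (snf.bM.sum_repr (Pi.single i (1 : ℚ[X]))) j
    rw [Finset.sum_apply] at h1
    have h2 : ∀ k, Q i k * P k j = (snf.bM.repr (Pi.single i 1) k • snf.bM k) j := by
      intro k
      rw [Pi.smul_apply, smul_eq_mul]
      rfl
    rw [Finset.sum_congr rfl fun k _ => h2 k, h1, Matrix.one_apply, Pi.single_apply]
    by_cases hij : i = j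
    · rw [if_pos hij, if_pos hij.symm]
    · rw [if_neg hij, if_neg fun h => hij h.symm]
  have hPQ : P * Q = 1 := mul_eq_one_comm.1 hQP
  rw [Fintype.linearIndependent_iff]
  intro c hc l0
  have h1 : ∀ i, ∑ l, c l * aeval ξ (R l i) = 0 := by
    intro i
    have := congrFun hc i
    rw [Finset.sum_apply] at this
    exact this
  have h2 : ∀ l, ∑ i, aeval ξ (R l i) * aeval ξ (Q i (snf.f l0)) = if l = l0 then 1 else 0 := by
    intro l
    have h3 := congrFun (congrFun hPQ (snf.f l)) (snf.f l0)
    rw [Matrix.mul_apply, Matrix.one_apply] at h3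
    have h4 := congrArg (aeval ξ) h3
    rw [map_sum] at h4
    have h5 : ∀ i, aeval ξ (P (snf.f l) i * Q i (snf.f l0)) =
        aeval ξ (R l i) * aeval ξ (Q i (snf.f l0)) := by
      intro i
      rw [map_mul]
      rfl
    rw [Finset.sum_congr rfl fun i _ => h5 i] at h4
    rw [h4]
    by_cases hl : l = l0
    · rw [if_pos hl, if_pos (by rw [hl]), map_one]
    · rw [if_neg hl, if_neg (fun h => hl (snf.f.injective h)), map_zero]
  have h6 : ∑ i, (∑ l, c l * aeval ξ (R l i)) * aeval ξ (Q i (snf.f l0)) = 0 := by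
    refine Finset.sum_eq_zero fun i _ => ?_
    rw [h1, zero_mul]
  have h7 : ∑ i, (∑ l, c l * aeval ξ (R l i)) * aeval ξ (Q i (snf.f l0)) =
      ∑ l, c l * ∑ i, aeval ξ (R l i) * aeval ξ (Q i (snf.f l0)) := by
    simp only [Finset.sum_mul, Finset.mul_sum]
    rw [Finset.sum_comm]
    exact Finset.sum_congr rfl fun l _ => Finset.sum_congr rfl fun i _ => mul_assoc _ _ _
  rw [h7, Finset.sum_congr rfl fun l _ => by rw [h2 l], Finset.sum_eq_single l0] at h6
  · simpa using h6
  · intro l _ hl
    rw [if_neg hl, mul_zero]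
  · intro hl
    exact absurd (Finset.mem_univ _) hl

end

end Pool.Agent.PSV.H17
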